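import Mathlib
import Pool.Agent.R913.Adj.Weight

/-!
# The Mumford-Tate conjecture and the Tate conjecture for the endomorphisms of the adjoint motive

Let `k` be a finitely generated field of characteristic zero and let `M i` be finitely many André motives
over `k`, pure of weights `w i`; let `V i` be their `ℓ`-adic realizations, with the actions `ρ i` of the
Galois group `Γ` of `k`, and let `M` be the direct sum of the `M i`. Let `𝔤` be the Lie algebra of the
`ℓ`-adic motivic Galois group of `M`; it acts on the sum of the `V i`. It is reductive, it is determined by
the tensors which it kills, and these are Tate tensors, since motivated classes are Tate classes (these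
properties are collected in `IsMotivic`).

The Mumford-Tate conjecture (the last equality of the motivated Mumford-Tate conjecture) for `M` says that
the representation of `Γ` is semisimple, and that the Tate tensors (in any number of variables, in `V` and
its dual space, fixed by a subgroup of finite index of `Γ`) are exactly the tensors killed by `𝔤`;
equivalently, the identity component of the `ℓ`-adic monodromy group is the identity component of the
motivic Galois group.

Theorem. The Mumford-Tate conjecture holds for `M` if and only if

* (semisimplicity) the realization of `M` is semisimple (under subgroups of finite index);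
* (`AdjointTate`) every linear map `End (V i) → End (V j)` which commutes with the action of a subgroup
  of finite index of `Γ` commutes with `𝔤`;
* (`CommutativePart`) the Tate tensors of weight zero which are killed by the derived algebra `[𝔤, 𝔤]`
  are killed by `𝔤`.

The second condition is the Tate conjecture (with motivated cycles) for the homomorphisms between the
adjoint motives `End (M i)` and `End (M j)`. It is a statement on Tate classes in
`M i ⊗ (M i)^∨ ⊗ M j ⊗ (M j)^∨`; if the `M i` are summands of the cohomology of varieties `X i`, these are
classes on `X i × X i × X j × X j`, and if `A` is an abelian variety and `M = h^1 (A)` they are classes of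
codimension two on `A ^ 4`. So all Tate classes on all products of powers are reduced to those on
products of four factors, of which at most two are different. The third condition is the Mumford-Tate
conjecture for the motives with a commutative motivic Galois group in the tensor category generated by `M`
(motives with complex multiplication). It is empty if `𝔤` is the sum of its derived algebra and of the
multiples of the weight operator, for instance for abelian varieties without simple factors of
type IV. For all abelian varieties the first condition was proved by Faltings, and the third one is known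
(the centres of the two groups have the same dimension). So the Mumford-Tate conjecture for an abelian
variety `A` is equivalent to the statement that the Tate classes of codimension two on `A ^ 4` are
combinations of Hodge classes. Faltings proved the corresponding statement for `A ^ 2` and codimension one:
the homomorphisms between the `H^1` themselves, instead of those between their endomorphism spaces.

For a motivic Galois group which is a classical group in its standard representation this is the
alternative of Larsen (a reductive subgroup with the same fourth moment is finite or contains the
derived group). Here the motivic Galois group is arbitrary.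

The proof. Let `𝔥` be the Lie algebra of the endomorphisms which kill all Tate tensors. The trace form is
nondegenerate on `𝔥`: an element of its radical is nilpotent (its replicas kill all tensors which it
kills, so they are in `𝔥`), the radical kills a nonzero vector in every nonzero stable subspace
(theorem of Engel), and the representation is semisimple. The blocks `End (V i) → End (V j)` of the
orthogonal projection onto `𝔥` commute with `Γ`, so by the second condition with `𝔤`, and so `𝔥` is an
ideal of `𝔤`. The elements of `𝔤` which are orthogonal to `𝔥` commute with `𝔥`, so with a subgroup of finite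
index of `Γ`, so, by the second condition again, with `𝔤`. Hence `𝔥` contains the derived algebra of `𝔤`. It
contains the weight operator since one element of `Γ` (a Frobenius element) acts purely.
-/

set_option autoImplicit false

namespace Pool.Agent.Results.MP_b8862a_ag.AdjointEndomorphisms

open Module Pool.Agent.Y114.TF Pool.Agent.Y114.RM Pool.Agent.H204R3.GP Pool.Agent.R913.Adj

section defs

variable {k : Type} [Field k] {ι : Type} [Fintype ι] [DecidableEq ι] {V : ι → Type}
  [∀ i, AddCommGroup (V i)] [∀ i, Module k (V i)] {Γ : Type} [Group Γ]

/-- The representation is semisimple under all subgroups of finite index, and the Tate tensors are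
the tensors killed by `𝔤`. -/
def IsFull (ρ : ∀ i, Representation k Γ (V i)) (𝔤 : Submodule k (End k (∀ i, V i))) : Prop :=
  FiniteIndexSemisimple (sumRep ρ) ∧
    ∀ (m : ℕ) (φ : Tensor k (∀ i, V i) m), TateTensor (sumRep ρ) φ ↔ ∀ X ∈ 𝔤, KillsTensor X φ

/-- The Tate tensors which are killed by the derived algebra of `𝔤` and by the weight operator are
killed by `𝔤`. -/
def IsFullOnCommutative (ρ : ∀ i, Representation k Γ (V i)) (w : ι → ℤ)
    (𝔤 : Submodule k (End k (∀ i, V i))) : Prop :=
  ∀ (m : ℕ) (φ : Tensor k (∀ i, V i) m), TateTensor (sumRep ρ) φ →
    (∀ X ∈ 𝔤, ∀ Y ∈ 𝔤, KillsTensor (X * Y - Y * X) φ) → KillsTensor (weightOp (k := k) V w) φ →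
    ∀ X ∈ 𝔤, KillsTensor X φ

end defs

section props

variable (Γ : Type) [Group Γ] {ι : Type} (n : ι → ℕ) (ℓ : ℕ) [Fact ℓ.Prime]

/-- Representations of `Γ` on the spaces `ℚ_ℓ ^ (n i)`. -/
def Reps : Type := ∀ i, Representation ℚ_[ℓ] Γ (Fin (n i) → ℚ_[ℓ])

/-- Spaces of endomorphisms of the direct sum of the spaces `ℚ_ℓ ^ (n i)`. -/
def EndSpace : Type := Submodule ℚ_[ℓ] (End ℚ_[ℓ] (∀ i, Fin (n i) → ℚ_[ℓ]))

variable {Γ n ℓ} (ρ : Reps Γ n ℓ) (𝔤 : EndSpace n ℓ)

/-- The representations are continuous. -/
def Conts [TopologicalSpace Γ] : Prop := ∀ i, Continuous fun g => LinearMap.toMatrix' (ρ i g)

/-- Some element of `Γ` acts purely of the weights `w i`. -/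
def Pure (w : ι → ℤ) : Prop := ∃ γ : Γ, ActsPurely ρ w γ

variable [Fintype ι] [DecidableEq ι]

/-- `𝔤` has the properties of the Lie algebra of the motivic Galois group (see `IsMotivic`). -/
def Motivic : Prop := IsMotivic ρ 𝔤

/-- The Mumford-Tate conjecture for the direct sum (see `IsFull`). -/
def MumfordTate : Prop := IsFull ρ 𝔤

/-- The direct sum is semisimple as a representation of every subgroup of finite index. -/
def Semisimple : Prop := FiniteIndexSemisimple (sumRep ρ)

/-- Tate's conjecture, with the tensors killed by `𝔤` for the motivated ones, for the homomorphisms
between the adjoint motives (see `AdjointMaps`). -/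
def AdjointTate : Prop := AdjointMaps ρ 𝔤

/-- The Mumford-Tate conjecture for the motives of weight zero with complex multiplication
(see `IsFullOnCommutative`). -/
def CommutativePart (w : ι → ℤ) : Prop := IsFullOnCommutative ρ w 𝔤

end props

/-- Let `ρ i` be the `ℓ`-adic realizations of finitely many motives `M i` of weights `w i`, `𝔤` the
Lie algebra of the motivic Galois group of their sum, and suppose that some element of the Galois
group acts purely. The Mumford-Tate conjecture for the sum holds if and only if the representation
is semisimple, the maps `End (V i) → End (V j)` which commute with a subgroup of finite index of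
the Galois group commute with `𝔤`, and the Tate tensors of weight zero killed by the derived algebra
of `𝔤` are killed by `𝔤`. -/
theorem result {Γ : Type} [Group Γ] [TopologicalSpace Γ] [IsTopologicalGroup Γ] [CompactSpace Γ]
    {ι : Type} [Fintype ι] [DecidableEq ι] {n : ι → ℕ} {ℓ : ℕ} [Fact ℓ.Prime]
    (ρ : Reps Γ n ℓ) (hρ : Conts ρ) (w : ι → ℤ) (hw : Pure ρ w)
    (𝔤 : EndSpace n ℓ) (h𝔤 : Motivic ρ 𝔤) :
    MumfordTate ρ 𝔤 ↔ Semisimple ρ ∧ AdjointTate ρ 𝔤 ∧ CommutativePart ρ 𝔤 w := by
  constructor
  · rintro ⟨hss, ht⟩
    exact ⟨hss, adjointMaps_of_kills ρ (IsMotivic.parts h𝔤) fun m φ hφ => (ht m φ).1 hφ,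
      fun m φ hφ _ _ => (ht m φ).1 hφ⟩
  · rintro ⟨hss, had, hcp⟩
    obtain ⟨γ, hγ⟩ := hw
    exact ⟨hss, fun m φ => ⟨fun hφ => hcp m φ hφ
      (fun X hX Y hY => derived_le ρ hρ h𝔤 hss had X hX Y hY m φ hφ)
      (weight_kills ρ hss hγ m φ hφ), IsMotivic.tate h𝔤 m φ⟩⟩

end Pool.Agent.Results.MP_b8862a_ag.AdjointEndomorphisms
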