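import Mathlib
import Pool.Agent.R931.BD.Sum

/-!
# The Mumford-Tate conjecture for direct sums of motives

Let `k` be a finitely generated field of characteristic zero and let `M i` be finitely many André motives
over `k`, pure of weights `w i`.  By restriction of scalars and by spreading out, we may suppose that the
motives live over an open subscheme `U` of an affine space over `ℚ`.  `Γ` is the fundamental group of `U`
(a quotient of the Galois group of `k`, with the same image), `s` the homomorphism from the Galois group of
`ℚ` given by a rational point `x` of `U`, and `ρ ℓ i` is the action of `Γ` on the `ℓ`-adic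
realization of `M i`, of dimension `n i`.  For motives over `ℚ` one has `Γ = Gal(ℚ)` and `s` is the
identity.  Outside of a finite set `S` of prime numbers the fibres of the `M i` at `x` have good reduction,
the Frobenius elements have, for all `ℓ`, the same characteristic polynomials `P v i`, pure of
weight `w i`, and `q ^ c * a` is an algebraic integer for all eigenvalues `a`.

Let `𝔤 ℓ` be the Lie algebra of the motivic Galois group of the direct sum `M` of the `M i`, acting on the
`ℓ`-adic realization.  It is reductive, it is determined by its tensors, and these are Tate tensors (this is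
collected in `IsMotivic`).  The Lie algebra of the motivic Galois group of `M i` is its image in the
endomorphisms of the realization of `M i`.  We say that the Mumford-Tate conjecture (or: the last equality of
the motivated Mumford-Tate conjecture) holds at `ℓ` for `M` if the `ℓ`-adic realization is semisimple
(under all subgroups of finite index) and the Tate tensors of all its tensor constructions are the tensors
killed by `𝔤 ℓ`; equivalently, the identity component of the `ℓ`-adic monodromy group is the
identity component of the motivic Galois group.

Theorem.  Suppose that for ONE prime number `ℓ₀` there is ONE element `s σ` in the image of the Galois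
group of `ℚ` with `r` multiplicatively independent eigenvalues on the `ℓ₀`-adic realization of `M`, where `r` is
the rank of the motivic Galois group of `M` (this holds if the Mumford-Tate conjecture holds for `M` at `ℓ₀`,
for a point `x` with the same monodromy group as the generic point).  Then for EVERY prime number `ℓ` the
Mumford-Tate conjecture holds at `ℓ` for the direct sum `M` if and only if it holds at `ℓ` for every
`M i`.

So the Mumford-Tate conjecture for a direct sum is independent of `ℓ`, if it is known for the summands: all
homomorphisms between the `ℓ`-adic realizations of `M i` and `M j` over finite extensions, and all Tate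
classes on tensor products of the `M i`, are motivated as soon as this holds for one prime.  For abelian
motives (where semisimplicity and the Tate conjecture for endomorphisms are known by Faltings) the
Mumford-Tate conjecture is known to be compatible with direct sums (Commelin 2019, Vasiu 2008) and
independent of `ℓ` (Larsen, Pink); here the motives are arbitrary.

The proof.  By `RankAtOnePrime` (library `Pool.Agent.R931.IR`, with the `ℓ`-adic six exponentials theorem)
the realization of `M` is semisimple at every `ℓ`, and the Lie algebra `𝔥` of the endomorphisms which kill all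
Tate tensors is a reductive subalgebra of `𝔤` which contains a maximal torus of `𝔤` (over `ℂ`).  The
image of `𝔥` in the endomorphisms of each summand has the same commutant as the image of `𝔤`.  The
elementary theorem `max_rank_blocks` on reductive subalgebras of maximal rank shows `𝔥 = 𝔤`.
-/

set_option autoImplicit false

namespace Pool.Agent.Results.MP_b8862a_ag.DirectSums

open NumberField IsDedekindDomain Polynomial Module Pool.Agent.Y114.TF Pool.Agent.Y114.GF
  Pool.Agent.Y114.MU Pool.Agent.Y114.RM Pool.Agent.H204R3.GP Pool.Agent.R931.IR Pool.Agent.R931.BD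

theorem result {Γ : Type} [Group Γ] [TopologicalSpace Γ] [IsTopologicalGroup Γ] [CompactSpace Γ]
    -- the homomorphism given by a rational point (the identity for motives over `ℚ`)
    (s : Gal(AlgebraicClosure ℚ/ℚ) →* Γ) (hs : Continuous s)
    {ι : Type} [Fintype ι] [DecidableEq ι] {n : ι → ℕ}
    -- the `ℓ`-adic realizations
    (ρ : ∀ (ℓ : ℕ) [Fact ℓ.Prime], Reps Γ n ℓ) (hρ : ∀ (ℓ : ℕ) [Fact ℓ.Prime], Conts (ρ ℓ))
    -- good reduction outside of a finite set of primes
    (w : ι → ℤ) (S : Set (HeightOneSpectrum (𝓞 ℚ))) (hS : S.Finite)
    (P : HeightOneSpectrum (𝓞 ℚ) → ι → ℚ[X])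
    (hP : ∀ (ℓ : ℕ) [Fact ℓ.Prime], ∀ v ∉ S, ¬ Above v ℓ → ∀ i,
      GoodReduction (restrictTo (ρ ℓ) s) i (w i) v (P v i))
    (c : ℕ) (hint : ∀ v ∉ S, ∀ i, IntegralRoots c v (P v i))
    -- the Lie algebras of the motivic Galois groups, and their rank
    (𝔤 : ∀ (ℓ : ℕ) [Fact ℓ.Prime], EndSpace n ℓ)
    (h𝔤 : ∀ (ℓ : ℕ) [Fact ℓ.Prime], Motivic (ρ ℓ) (𝔤 ℓ))
    (r : ℕ) (hrank : ∀ (ℓ : ℕ) [Fact ℓ.Prime], RankLE (𝔤 ℓ) r)
    -- one element, for one prime `ℓ₀`
    (ℓ₀ : ℕ) [Fact ℓ₀.Prime] (hr : ∃ σ, IndependentEigenvalues (ρ ℓ₀) (s σ) r) :
    ∀ (ℓ : ℕ) [Fact ℓ.Prime],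
      MumfordTate (ρ ℓ) (𝔤 ℓ) ↔ ∀ i, MumfordTatePart (ρ ℓ) (𝔤 ℓ) i :=
  fun ℓ _ => (main_full s hs w c S hS P ℓ₀ (ρ ℓ₀) (hρ ℓ₀)
    (fun v hv hv₀ i => ⟨hP ℓ₀ v hv hv₀ i, hint v hv i⟩) r hr ℓ (ρ ℓ) (hρ ℓ) (hP ℓ) (𝔤 ℓ) (h𝔤 ℓ)
    (hrank ℓ)).symm

end Pool.Agent.Results.MP_b8862a_ag.DirectSums
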