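import Pool.Agent.R919.MM.Cmb

/-!
# The motivated Mumford-Tate conjecture for the sum of an arbitrary motive and elliptic curves

Let `k` be a finitely generated subfield of the complex numbers, `ℓ` a prime number, `K = ℚ_ℓ`, and
`Γ` the Galois group of `k` with `χ` the inverse of the cyclotomic character. Let `M` be an
ARBITRARY André motive over `k` which is a direct sum of motives with a nondegenerate pairing
`M ⊗ M → 1(-d)` (for example `M = H^*(X)` for any smooth projective variety `X` over `k`, with the
Poincaré duality pairing), and let `E_j` be elliptic curves over `k` without complex multiplication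
which are pairwise non-isogenous over the algebraic closure. `V o` is the Hodge structure `r_B(M)`
with a polarization, `ρ o` the representation `r_ℓ(M)`, written in the same basis with the comparison
isomorphism, and `Q` the matrix of the pairing; `V j = H^1(E_j, ℚ)` and `ρ j = H^1(E_j, ℚ_ℓ)`.

**Theorem.** There is a set `S` of at most `dim M` exceptional indices such that the following holds for
all finite families `f` of indices (with repetitions, `o` is allowed) which are not in `S`:
* all Hodge classes on the tensor product of the `V (f x)` are sums of products of Hodge classes on
  the tensor powers of `M` and of the single `H^1(E_j)`; so if all Hodge classes on the tensor powers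
  of `M` are motivated then so are these (the Hodge classes on the powers of an elliptic curve
  are algebraic);
* if the Tate classes on the tensor powers of `M` are the `ℚ_ℓ`-linear combinations of the Hodge
  classes (the Mumford-Tate conjecture for `M`; for elliptic curves this is known) then the Tate
  classes on the tensor product of the `V (f x)` are the `ℚ_ℓ`-linear combinations of the Hodge
  classes.
So the motivated Mumford-Tate conjecture for `M` implies the conjecture for the direct sum of `M` and
of the `H^1(E_j)` for all `j` which are not in `S`. Nothing is assumed on the Mumford-Tate group
of `M` and on the Galois representation, not even semisimplicity. (For abelian motives `M` there is no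
exceptional index, by Commelin and Vasiu.)

In Lean the tensor product over `x : κ` of the representations with indices `f x` is the space of the
functions on `∏ B (f x)`, where `B j` is the index set of a basis.

The proof puts together the theorem on Hodge classes in `R919/FE` (the Lie algebra generated by the
conjugates of the operators `p - q`) and its `ℓ`-adic analogue in `R919/GT` (the Lie algebra
generated by the logarithms of the semisimple parts of the elements of `Γ` with respect to arbitrary
homomorphisms from the multiplicative group of the algebraic closure of `ℚ_ℓ` to the additive group).
Each of them gives at most `dim M / 2` exceptional indices: for these there is an element of the Lie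
algebra of `M` whose eigenvalues span a space over the rational numbers whose dimension is at least
the number of the exceptional indices, and the set of the eigenvalues is symmetric.
-/

namespace Pool.Agent.Results.MP_b8862a_ag.FewExceptionalCurves

open Pool.Agent.R919 Pool.Agent.R919.MM Matrix

theorem result {K Γ J : Type} [Field K] [CharZero K] [Group Γ] [DecidableEq J] {B : J → Type}
    [∀ j, Fintype (B j)] [∀ j, DecidableEq (B j)] (V : ∀ j, FE.HodgeStructure (B j))
    (ρ : ∀ j, Γ →* Matrix (B j) (B j) K) (χ : Γ →* Kˣ)
    (o : J) (Q : Matrix (B o) (B o) K) (hQu : IsUnit Q)
    (hQ : ∀ γ, ∃ r : K, (ρ o γ)ᵀ * Q * ρ o γ = r • Q)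
    (h1 : ∀ j, j ≠ o → (V j).NoCM ∧ GT.IsEll χ (ρ j))
    (h2 : ∀ i j, i ≠ o → j ≠ o → i ≠ j → FE.Independent (V i) (V j) ∧ GT.NonIso (ρ i) (ρ j))
    (h3 : ∀ j, MumfordTateAt V ρ χ j) :
    ∃ S : Finset J, o ∉ S ∧ S.card ≤ Fintype.card (B o) ∧
      ∀ (κ : Type) [Fintype κ] [DecidableEq κ] [Nonempty κ] (f : κ → J), (∀ x, f x ∉ S) →
        FE.hodgeClasses V f ≤ ∏ j ∈ Finset.univ.image f, FE.hodgeClassesOf V f j ∧
          scal K (FE.hodgeClasses V f) = ⨆ m, GT.tateClasses ρ χ f m :=
  main V ρ χ o Q hQu hQ h1 h2 h3

end Pool.Agent.Results.MP_b8862a_ag.FewExceptionalCurves
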