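import Pool.Agent.R920.MT.Main
import Pool.Agent.R940.HMain

/-!
# The motivated classes between the algebraic classes and the Hodge classes

Let `X` be a smooth projective complex variety (with nonzero cohomology), and `X ^ n` its powers.
The quotient of the numbers of linearly independent Hodge classes and of linearly independent
motivated classes (André) on `X ^ n` converges to an element `N` of `{1, 2, …, ∞}`, and
`N = 1` if and only if all Hodge classes on all powers of `X` are motivated, that is, if the
Mumford-Tate group of `H(X)` is equal to the motivic Galois group of the André motive of `X`.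
Otherwise asymptotically at most one half of the Hodge classes is motivated; and if `N` is finite,
all Hodge classes on all powers of `X` are generated, under motivated correspondences, by
motivated classes and at most `N - 1` Hodge classes.

The quotient of the number of motivated classes and of the rank of the group of algebraic cycles
modulo numerical equivalence converges to an element `M` of `{1, 2, …, ∞}`; we have `M = 1` if and
only if all motivated classes on all powers of `X` are algebraic. The quotient of the number of Hodge
classes and of the rank of the group of the cycles converges to the product `N M`.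
-/

open CategoryTheory AlgebraicGeometry

universe u

namespace Pool.Agent.Results.MP_b8862a_ag.MotivatedTower

open Pool.Agent.H914 Pool.Agent.H914.VarClass Pool.Agent.H914.VarClass.Obj
  Pool.Agent.H914.WeilCohomology Pool.Agent.Y121.AHS Pool.Agent.R920.MT

open Pool.Agent.Y133.Half (pw HasIndex dimBy cycRank algDim AtMostHalf GeneratedOver)

variable {k : Type u} [Field k] {𝒱 : VarClass k} {ops : CycleOps 𝒱}

/-- All Hodge classes on all powers of `X` are motivated. -/
def HodgeAreMotivated (T : HodgeTheory ops) (X : 𝒱.Obj) : Prop :=
  ∀ n j c, IsHodge T (pw X n) j c → IsMotivated T.W (pw X n) j c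

/-- The class `c` is the class of an algebraic cycle (with rational coefficients). -/
def IsAlgebraic (T : HodgeTheory ops) (X : 𝒱.Obj) (j : ℕ) (c : T.W.H X) : Prop :=
  ∃ z, X.IsCyc j z ∧ T.W.cl X z = c

/-- All motivated classes on all powers of `X` are algebraic. -/
def MotivatedAreAlgebraic (T : HodgeTheory ops) (X : 𝒱.Obj) : Prop :=
  ∀ n j c, IsMotivated T.W (pw X n) j c → IsAlgebraic T (pw X n) j c

lemma isAlgebraic_iff (T : HodgeTheory ops) (X : 𝒱.Obj) (j : ℕ) (c : T.W.H X) :
    IsAlgebraic T X j c ↔ c ∈ spanCycles T.W X j := by
  constructor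
  · rintro ⟨z, hz, rfl⟩
    exact Submodule.subset_span ⟨j, rfl, z, hz, rfl⟩
  · exact fun h => Pool.Agent.R940.exists_cycle T.rat h

/-- **The tower law for algebraic, motivated and Hodge classes.** -/
theorem result (T : HodgeTheory ops) (X : 𝒱.Obj) [Nontrivial (T.W.H X)] (h m a r : ℕ → ℕ)
    (hh : ∀ n, h n = dimBy T.W (IsHodge T) (pw X n))
    (hm : ∀ n, m n = dimBy T.W (IsMotivated T.W) (pw X n))
    (ha : ∀ n, a n = algDim T.W (pw X n)) (hr : ∀ n, r n = cycRank ops (pw X n)) :
    ∃ N M : ℕ∞, 1 ≤ N ∧ 1 ≤ M ∧ HasIndex h m N ∧ HasIndex m r M ∧ HasIndex h r (N * M) ∧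
      (N = 1 ↔ HodgeAreMotivated T X) ∧ (M = 1 ↔ MotivatedAreAlgebraic T X) ∧
      (N ≠ 1 → AtMostHalf m h) ∧ (M ≠ 1 → AtMostHalf a m) ∧
      (N ≠ ⊤ → GeneratedOver T.W (IsMotivated T.W) (IsHodge T) X N) := by
  obtain rfl := funext hh
  obtain rfl := funext hm
  obtain rfl := funext ha
  obtain rfl := funext hr
  obtain ⟨N, M, h1, h2, h3, h4, h5, h6, h7, h8, h9, h10, -⟩ :=
    (motPred T.W).tower (Pool.Agent.Y121.AH.hodgePred (toH T))
      (fun h => IsMotivated.hodge (T := toH T) h) X (fun n => mot_nondeg (toH T) (pw X n))
  refine ⟨N, M, h1, h2, h3, h4, h5, h6, ?_, h8, h9, h10⟩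
  rw [h7]
  exact forall_congr' fun n => forall_congr' fun j => forall_congr' fun c =>
    imp_congr_right fun _ => (isAlgebraic_iff T (pw X n) j c).symm

end Pool.Agent.Results.MP_b8862a_ag.MotivatedTower
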